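import Mathlib
import Pool.Agent.Lib.MP_4eb9bb_ag.Sch4
import Pool.Agent.Lib.MP_4eb9bb_ag.Deg

open AlgebraicGeometry CategoryTheory

namespace Pool.Agent.Results.MP_4eb9bb_ag.NoSuperAttracting

/-- The coordinate ring of affine three-space over the complex numbers. -/
abbrev CoordRing : Type := MvPolynomial (Fin 3) ℂ

/-- Affine three-space over the complex numbers, as a scheme. -/
noncomputable abbrev AffineThreeSpace : Scheme.{0} := Spec (CommRingCat.of CoordRing)

/-- The degree of a polynomial automorphism `F = (F₀, F₁, F₂)` of affine three-space, where the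
automorphism is given by its comorphism `f`, so that `Fᵢ = f (X i)`: the maximum of the total
degrees of the three components. The comorphism of the `n`-th iterate of `F` is `f ^ n`. -/
noncomputable def autDegree (f : CoordRing ≃ₐ[ℂ] CoordRing) : ℕ :=
  Finset.univ.sup fun i : Fin 3 => (f (MvPolynomial.X i)).totalDegree

/-- `l` is the dynamical degree of the polynomial automorphism with comorphism `f`, that is the
limit of the `n`-th roots of the degrees of the iterates. -/
def IsDynamicalDegree (f : CoordRing ≃ₐ[ℂ] CoordRing) (l : ℝ) : Prop :=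
  Filter.Tendsto (fun n : ℕ => ((autDegree (f ^ n) : ℕ) : ℝ) ^ (1 / (n : ℝ))) Filter.atTop
    (nhds l)

/-- The endomorphism of the local ring of `X` at `p` induced by a morphism `F` which is defined
on an open neighbourhood `U` of `p` and fixes `p`. -/
noncomputable def localEndo {X : Scheme.{0}} {U : X.Opens} {p : X} (hp : p ∈ U)
    (F : U.toScheme ⟶ X) (h : F ⟨p, hp⟩ = p) :
    X.presheaf.stalk p ⟶ X.presheaf.stalk p :=
  X.presheaf.stalkSpecializes (specializes_of_eq h) ≫ F.stalkMap ⟨p, hp⟩ ≫
    (U.stalkIso ⟨p, hp⟩).hom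

/-- Let `ι` be an open immersion of affine three-space in `X` and `f` the comorphism of a
polynomial automorphism. The point `p` is a super-attracting fixed point of the induced rational
self-map of `X` if that map extends to a morphism `F` on an open neighbourhood `U` of `p`, `F`
fixes `p`, and the differential of `F` at `p` is nilpotent, which means that some iterate of the
induced endomorphism of the local ring maps the maximal ideal into its square. -/
def IsSuperAttracting {X : Scheme.{0}} (ι : AffineThreeSpace ⟶ X)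
    (f : CoordRing ≃ₐ[ℂ] CoordRing) (p : X) : Prop :=
  ∃ (U : X.Opens) (hp : p ∈ U) (F : U.toScheme ⟶ X) (h : F ⟨p, hp⟩ = p),
    (ι ∣_ U) ≫ F = (ι ⁻¹ᵁ U).ι ≫
      Spec.map (CommRingCat.ofHom (f : CoordRing →+* CoordRing)) ≫ ι ∧
    ∃ N : ℕ, ∀ a ∈ IsLocalRing.maximalIdeal (X.presheaf.stalk p),
      (localEndo hp F h).hom^[N] a ∈ IsLocalRing.maximalIdeal (X.presheaf.stalk p) ^ 2

/-- The automorphism `(x₀, x₁, x₂) ↦ (x₂, x₁ + x₂³, x₀ + x₁² x₂ + x₂³)` of complex affine
three-space has dynamical degree `3`, its inverse has dynamical degree `7 < 3²`, and for every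
integral separated scheme `X` locally of finite type over the complex numbers which contains
affine three-space as an open subscheme, the induced rational self-map of `X` has no
super-attracting fixed point outside of affine three-space. -/
theorem result :
    ∃ f : CoordRing ≃ₐ[ℂ] CoordRing,
      (f (MvPolynomial.X 0) = MvPolynomial.X 2 ∧
        f (MvPolynomial.X 1) = MvPolynomial.X 1 + MvPolynomial.X 2 ^ 3 ∧
        f (MvPolynomial.X 2) = MvPolynomial.X 0 + MvPolynomial.X 1 ^ 2 * MvPolynomial.X 2 +
          MvPolynomial.X 2 ^ 3) ∧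
      IsDynamicalDegree f 3 ∧ IsDynamicalDegree f⁻¹ 7 ∧ (7 : ℝ) < 3 ^ 2 ∧
      ∀ (X : Scheme.{0}) (s : X ⟶ Spec (CommRingCat.of ℂ)) (ι : AffineThreeSpace ⟶ X),
        IsIntegral X → IsSeparated s → LocallyOfFiniteType s → IsOpenImmersion ι →
        ι ≫ s = Spec.map (CommRingCat.ofHom (algebraMap ℂ CoordRing)) →
        ∀ p : X, IsClosed {p} → p ∉ Set.range ι → ¬ IsSuperAttracting ι f p := by
  refine ⟨SAFP.fE, ⟨SAFP.fF_X0, SAFP.fF_X1, SAFP.fF_X2⟩, ?_, ?_, by norm_num, ?_⟩
  · have h := SAFP.tendsto_root 3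
    have h2 : (fun n : ℕ => ((autDegree (SAFP.fE ^ n) : ℕ) : ℝ) ^ (1 / (n : ℝ))) =
        fun n : ℕ => (((3 ^ n : ℕ) : ℝ)) ^ (1 / (n : ℝ)) := by
      funext n
      rw [← SAFP.aDeg_fwd n]
      rfl
    unfold IsDynamicalDegree
    rw [h2]
    exact_mod_cast h
  · have h := SAFP.tendsto_root 7
    have h2 : (fun n : ℕ => ((autDegree ((SAFP.fE⁻¹) ^ n) : ℕ) : ℝ) ^ (1 / (n : ℝ))) =
        fun n : ℕ => (((7 ^ n : ℕ) : ℝ)) ^ (1 / (n : ℝ)) := by
      funext n
      rw [← SAFP.aDeg_inv n]
      rfl
    unfold IsDynamicalDegree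
    rw [h2]
    exact_mod_cast h
  · intro X s ι h1 h2 h3 h4 hover p hpc hpr hsa
    obtain ⟨U, hp, F, h, hF, N, hN⟩ := hsa
    exact SAFP.no_super s ι hover p hpc hpr U hp F h hF N hN

end Pool.Agent.Results.MP_4eb9bb_ag.NoSuperAttracting
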